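import Mathlib
import Pool.Agent.V11194.Wolf

set_option autoImplicit false

/-!
# Isospectral spherical space forms of dimension 17 with non-isomorphic fundamental groups
-/

namespace Pool.Agent.Results.MP_add580_gt.DimSeventeen

/-- `Γ` acts freely on the unit sphere of `ℝ^N`: no element other than the identity fixes a unit
vector. -/
def ActsFreely {N : ℕ} (Γ : Subgroup (Matrix.orthogonalGroup (Fin N) ℝ)) : Prop :=
  ∀ g ∈ Γ, g ≠ 1 → ∀ v : Fin N → ℝ, v ⬝ᵥ v = 1 → g.1.mulVec v ≠ v

/-- The dimension of the space of `Γ`-invariant harmonic homogeneous polynomials of degree `k` on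
`ℝ^N`, i.e. the multiplicity of the eigenvalue `k (k + N - 2)` of the Laplacian on the quotient of
the unit sphere by `Γ`. -/
noncomputable def multiplicity {N : ℕ} (Γ : Subgroup (Matrix.orthogonalGroup (Fin N) ℝ))
    (k : ℕ) : ℕ :=
  Module.finrank ℝ ↥(MvPolynomial.homogeneousSubmodule (Fin N) ℝ k ⊓
    LinearMap.ker (∑ i : Fin N,
      (MvPolynomial.pderiv i).toLinearMap ∘ₗ (MvPolynomial.pderiv i).toLinearMap) ⊓
    ⨅ g ∈ Γ, LinearMap.ker ((MvPolynomial.aeval (fun i : Fin N =>
      ∑ j : Fin N, MvPolynomial.C (g.1 i j) * MvPolynomial.X j)).toLinearMap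
        - LinearMap.id))

/-- The two quotients of the sphere have the same Laplace spectrum with multiplicities. -/
def Isospectral {N : ℕ} (Γ₁ Γ₂ : Subgroup (Matrix.orthogonalGroup (Fin N) ℝ)) : Prop :=
  ∀ k : ℕ, multiplicity Γ₁ k = multiplicity Γ₂ k

open Pool.Agent.Helper477.Sph Pool.Agent.Helper477.HarmInv Pool.Agent.V11194.Wolf

theorem free (c : Bool) : ActsFreely (rho c).range := by
  rintro g ⟨x, rfl⟩ hg v hv hgv
  have hx : x ≠ 1 := by
    rintro rfl
    exact hg (map_one _)
  have h1 : (MM x).mulVec (fun i => v (en.symm i)) = fun i => v (en.symm i) := by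
    funext i
    have h2 := congrFun hgv (en.symm i)
    have h3 : (rho c x).1.mulVec v (en.symm i) = (MM x).mulVec (fun i => v (en.symm i)) i := by
      have h4 : (rho c x).1 = (MM x).submatrix en en := rfl
      rw [h4, Matrix.mulVec, Matrix.mulVec, dotProduct, dotProduct]
      rw [← Equiv.sum_comp en]
      simp
    rw [← h3]
    exact h2
  have h2 := MM_free x hx _ h1
  have h3 : v = 0 := by
    funext j
    have := congrFun h2 (en j)
    simpa using this
  rw [h3] at hv
  simp at hv

theorem isospectral : Isospectral (rho true).range (rho false).range := by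
  classical
  have hm : ∀ (Γ : Subgroup (Matrix.orthogonalGroup (Fin 18) ℝ)) (k : ℕ), multiplicity Γ k =
      Module.finrank ℝ ↥(MvPolynomial.homogeneousSubmodule (Fin 18) ℝ k ⊓ LinearMap.ker (D 18) ⊓
        Inv Γ) := fun Γ k => rfl
  intro k
  rw [hm, hm]
  refine isospectral_of_invariants (by norm_num) _ _ (fun k => ?_) k
  have key : ∀ c : Bool, (819 : ℝ) * (Module.finrank ℝ
      ↥(MvPolynomial.homogeneousSubmodule (Fin 18) ℝ k ⊓ Inv (rho c).range) : ℝ) =
      ∑ p : ZMod 91 × ZMod 9, (Mk k (OM (⟨p.1, p.2⟩ : Gp c)).1).trace := by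
    intro c
    let e : Gp c ≃ (rho c).range := (MonoidHom.ofInjective (rho_injective c)).toEquiv
    have h1 := molien k (rho c).range
    have h2 : Fintype.card (rho c).range = 819 := by
      rw [← Fintype.card_congr e, Fintype.card_congr (eqv c), Fintype.card_prod, ZMod.card,
        ZMod.card]
    rw [h2] at h1
    rw [show (819 : ℝ) = ((819 : ℕ) : ℝ) by norm_num, h1, ← Equiv.sum_comp e,
      ← Equiv.sum_comp (eqv c).symm]
    rfl
  have h3 : (819 : ℝ) * (Module.finrank ℝ
      ↥(MvPolynomial.homogeneousSubmodule (Fin 18) ℝ k ⊓ Inv (rho true).range) : ℝ) =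
      (819 : ℝ) * (Module.finrank ℝ
      ↥(MvPolynomial.homogeneousSubmodule (Fin 18) ℝ k ⊓ Inv (rho false).range) : ℝ) := by
    rw [key true, key false]
    exact Finset.sum_congr rfl fun p _ => trace_eq k p.1 p.2
  have h4 := mul_left_cancel₀ (by norm_num : (819 : ℝ) ≠ 0) h3
  exact_mod_cast h4

/-- There are isospectral spherical space forms of a dimension `n ≡ 1 (mod 4)` with
non-isomorphic fundamental groups. -/
theorem result : ∃ n : ℕ, n ≡ 1 [MOD 4] ∧
    ∃ Γ₁ Γ₂ : Subgroup (Matrix.orthogonalGroup (Fin (n + 1)) ℝ),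
      Finite Γ₁ ∧ Finite Γ₂ ∧ ActsFreely Γ₁ ∧ ActsFreely Γ₂ ∧ Isospectral Γ₁ Γ₂ ∧
        IsEmpty (Γ₁ ≃* Γ₂) := by
  refine ⟨17, by decide, (rho true).range, (rho false).range, ?_, ?_, free true, free false,
    isospectral, ?_⟩
  · exact Finite.of_equiv _ (MonoidHom.ofInjective (rho_injective true)).toEquiv
  · exact Finite.of_equiv _ (MonoidHom.ofInjective (rho_injective false)).toEquiv
  · constructor
    intro f
    exact not_iso.elim (((MonoidHom.ofInjective (rho_injective true)).trans f).trans
      (MonoidHom.ofInjective (rho_injective false)).symm)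

end Pool.Agent.Results.MP_add580_gt.DimSeventeen
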